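import Pool.Agent.Freud.Glue
import Pool.Agent.Freud.Lead
import Pool.Agent.FreudM.OddCase

/-!
# The oscillating term in the recurrence coefficients of `exp (-|x|^α)`

For every real `α > 1` the leading oscillating term of the normalised recurrence coefficients is
the conjectured one.  The full expansion of form (E) exists when `α` is not an odd integer, and
fails for every odd integer `α ≥ 3`, where a term `(-1)^n n^(1-2α) log n` appears.
-/

set_option autoImplicit false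

open MeasureTheory Filter Topology Asymptotics

namespace Pool.Agent.Results.MP_6cbd85_an.OscillatingTerm

/-- `p 0, p 1, ...` are the orthonormal polynomials with positive leading coefficients for the
weight `exp (-|x|^α)` on the line, and `a 1, a 2, ...` are their recurrence coefficients:
`x * p n = a (n + 1) * p (n + 1) + a n * p (n - 1)` (without the last term for `n = 0`). -/
structure IsOrthonormal (α : ℝ) (p : ℕ → Polynomial ℝ) (a : ℕ → ℝ) : Prop where
  deg : ∀ n, (p n).natDegree = n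
  lead : ∀ n, 0 < (p n).leadingCoeff
  orth : ∀ m n, ∫ x : ℝ, (p m).eval x * (p n).eval x * Real.exp (-(|x| ^ α)) =
    if m = n then 1 else 0
  rec0 : Polynomial.X * p 0 = Polynomial.C (a 1) * p 1
  rec1 : ∀ n, 1 ≤ n →
    Polynomial.X * p n = Polynomial.C (a (n + 1)) * p (n + 1) + Polynomial.C (a n) * p (n - 1)

/-- The constant `C(α) = 2^α Γ((α+1)/2) / (√π Γ(α/2))`. -/
noncomputable def Cst (α : ℝ) : ℝ :=
  2 ^ α * Real.Gamma ((α + 1) / 2) / (√Real.pi * Real.Gamma (α / 2))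

/-- The normalised recurrence coefficients `r_n = a_n (C(α) / n)^(1/α)`. -/
noncomputable def r (α : ℝ) (a : ℕ → ℝ) (n : ℕ) : ℝ := a n * (Cst α / n) ^ (1 / α)

/-- The conjectured coefficient
`B₀ = (α - 1) sin(πα/2) (1 - 1/α)^α Γ(α/2)^2 / (2π)`. -/
noncomputable def B0 (α : ℝ) : ℝ :=
  (α - 1) * Real.sin (Real.pi * α / 2) * (1 - 1 / α) ^ α * Real.Gamma (α / 2) ^ 2 / (2 * Real.pi)

/-- The sequence `s` has an expansion of form (E) with exponents `i`, `j` and coefficients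
`A`, `B`; there are `N` smooth and `M` oscillating terms (`N`, `M` may be infinite). -/
def Expands (s : ℕ → ℝ) (N M : ℕ∞) (i j A B : ℕ → ℝ) : Prop :=
  0 < N ∧ i 0 = 0 ∧ A 0 = 1 ∧
    (∀ k l : ℕ, k < l → (l : ℕ∞) < N → i k < i l) ∧
    (∀ k l : ℕ, k < l → (l : ℕ∞) < M → j k < j l) ∧
    (N = ⊤ → Tendsto i atTop atTop) ∧ (M = ⊤ → Tendsto j atTop atTop) ∧
    ∀ T : ℝ, 0 < T → (fun n : ℕ => s n
      - (∑ᶠ k ∈ {k : ℕ | (k : ℕ∞) < N ∧ i k ≤ T}, A k * (n : ℝ) ^ (-(i k)))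
      - (-1) ^ n * ∑ᶠ k ∈ {k : ℕ | (k : ℕ∞) < M ∧ j k ≤ T}, B k * (n : ℝ) ^ (-(j k)))
        =o[atTop] (fun n : ℕ => (n : ℝ) ^ (-T))

/-- `s` has some expansion of form (E). -/
def HasE (s : ℕ → ℝ) : Prop :=
  ∃ (N M : ℕ∞) (i j A B : ℕ → ℝ), Expands s N M i j A B

/-- `s` has an expansion of form (E) in which `j 0 = j0` and `B 0 = b0`. -/
def HasEWith (s : ℕ → ℝ) (j0 b0 : ℝ) : Prop :=
  ∃ (N M : ℕ∞) (i j A B : ℕ → ℝ), Expands s N M i j A B ∧ 0 < M ∧ j 0 = j0 ∧ B 0 = b0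

/-- Full answer to the question: the leading oscillating term is the conjectured one for every
`α > 1`; an expansion of form (E) (with the conjectured `j 0` and `B 0`) exists if `α` is not an
odd integer, and no expansion of form (E) exists if `α` is an odd integer. -/
theorem result (α : ℝ) (hα : 1 < α) :
    (∃ (p : ℕ → Polynomial ℝ) (a : ℕ → ℝ), IsOrthonormal α p a) ∧
    ∀ (p : ℕ → Polynomial ℝ) (a : ℕ → ℝ), IsOrthonormal α p a →
      (∃ c : ℕ → ℝ, c 0 = 1 ∧ (fun n : ℕ => r α a n -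
        ∑ k ∈ Finset.range (⌊α⌋₊ + 1), c k * (n : ℝ) ^ (-(k : ℝ)) -
        (-1) ^ n * (B0 α * (n : ℝ) ^ (-α))) =o[atTop] (fun n : ℕ => (n : ℝ) ^ (-α))) ∧
      ((∀ k : ℕ, α ≠ 2 * k + 1) → HasEWith (r α a) α (B0 α)) ∧
      ((∃ k : ℕ, α = 2 * k + 1) → ¬ HasE (r α a)) := by
  refine ⟨?_, fun p a h => ?_⟩
  · obtain ⟨p, a, h⟩ := Freud.exists_freud α (by linarith)
    exact ⟨p, a, ⟨h.deg, h.lead, h.orth, h.rec0, h.rec1⟩⟩
  · have hF : Freud.IsFreud α p a := ⟨h.deg, h.lead, h.orth, h.rec0, h.rec1⟩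
    obtain ⟨δ, y0, c, r0, c', C, n0, A, w, We, Wx, hδ, hδ', hG, hA⟩ := Freud.freud_asm α hα
    refine ⟨Freud.lead_term α hα p a hF, fun hodd => ?_, ?_⟩
    · obtain ⟨N, M, i, j, A', B, h1, h2, h3, h4, h5, h6, h7⟩ :=
        FreudM.freud_expEB hα hodd hδ hδ' hG hA hF
      refine ⟨N, M, i, j, A', B, ⟨h1, h2, h3, h7⟩, h4, h5, ?_⟩
      rw [h6]
      exact Freud.two_bco α hα
    · rintro ⟨k, hk⟩ ⟨N, M, i, j, A', B, hE⟩
      have hk1 : 1 ≤ k := by
        rcases Nat.eq_zero_or_pos k with h0 | h0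
        · subst h0
          simp at hk
          linarith
        · exact h0
      exact FreudM.freud_not_expE hk1 hk hδ hδ' hG hA hF ⟨N, M, i, j, A', B, hE⟩

end Pool.Agent.Results.MP_6cbd85_an.OscillatingTerm
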